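import Mathlib

/-!
An asymptotic doubling of the lower bound for the smallest `k` with `hp_r(k) = r`.

The positions are cut into `K` blocks.  Let `T` consist of the words with `1` on a set of size `m`
or `m + 1` and `0` elsewhere and of the words with `1` on a set of size `j` or `j + 1` and `2`
elsewhere, where only sets with at most `a` points in every block are used, and let `H` be the set
of edges disjoint from at most one word of `T`.
-/

namespace Pool.Agent.Work.MP_b5d674_co.Parked.DoubleBound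

open Finset

variable {r K : ℕ}

/-- Two consecutive layers of the cube. -/
def layers (r s : ℕ) : Finset (Finset (Fin r)) := univ.filter fun J => J.card = s ∨ J.card = s + 1

theorem card_layers (r s : ℕ) : (layers r s).card = r.choose s + r.choose (s + 1) := by
  have h : ∀ t, (univ.filter fun J : Finset (Fin r) => J.card = t).card = r.choose t := by
    intro t
    have h1 := card_powersetCard t (univ : Finset (Fin r))
    rw [card_univ, Fintype.card_fin] at h1
    rw [← h1]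
    congr 1
    ext J
    simp
  rw [layers, filter_or, card_union_of_disjoint, h, h]
  exact disjoint_filter.2 fun J _ h1 h2 => by omega

/-- The number of points of `S` in block `k`. -/
def cnt (β : Fin r → Fin K) (S : Finset (Fin r)) (k : Fin K) : ℕ := (S.filter fun i => β i = k).card

theorem cnt_mono (β : Fin r → Fin K) {S T : Finset (Fin r)} (h : S ⊆ T) (k : Fin K) :
    cnt β S k ≤ cnt β T k := card_le_card (filter_subset_filter _ h)

theorem sum_cnt (β : Fin r → Fin K) (S : Finset (Fin r)) : ∑ k, cnt β S k = S.card :=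
  (card_eq_sum_card_fiberwise (f := β) (t := univ) fun _ _ => mem_coe.2 (mem_univ _)).symm

theorem card_add_le (β : Fin r → Fin K) {S : Finset (Fin r)} {a s : ℕ}
    (h : ∀ k, cnt β S k + s ≤ a) : S.card + K * s ≤ K * a := by
  have h1 : ∑ k : Fin K, (cnt β S k + s) ≤ ∑ _k : Fin K, a := sum_le_sum fun k _ => h k
  simpa [sum_add_distrib, sum_cnt] using h1

theorem cnt_compl (β : Fin r → Fin K) (S : Finset (Fin r)) (k : Fin K) :
    cnt β univ k ≤ cnt β Sᶜ k + S.card := by
  refine le_trans (card_le_card ?_) (card_union_le _ _)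
  intro i hi
  by_cases h : i ∈ S
  · exact mem_union_right _ h
  · exact mem_union_left _ (mem_filter.2 ⟨mem_compl.2 h, (mem_filter.1 hi).2⟩)

/-- The capped sets of size `s` or `s + 1`. -/
def fam (β : Fin r → Fin K) (a s : ℕ) : Finset (Finset (Fin r)) :=
  (layers r s).filter fun S => ∀ k, cnt β S k ≤ a

/-- No member of the family lies between `E` and the complement of `E'`. -/
def Dead (β : Fin r → Fin K) (a s : ℕ) (E E' : Finset (Fin r)) : Prop :=
  ∀ J ∈ fam β a s, E ⊆ J → ¬ Disjoint J E'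

/-- At most one member of the family lies between `E` and the complement of `E'`. -/
def Few (β : Fin r → Fin K) (a s : ℕ) (E E' : Finset (Fin r)) : Prop :=
  ∀ J ∈ fam β a s, E ⊆ J → Disjoint J E' → ∀ L ∈ fam β a s, E ⊆ L → Disjoint L E' → J = L

theorem mem_fam {β : Fin r → Fin K} {a s : ℕ} {J : Finset (Fin r)} (h : J ∈ fam β a s) :
    (J.card = s ∨ J.card = s + 1) ∧ ∀ k, cnt β J k ≤ a :=
  ⟨(mem_filter.1 (mem_filter.1 h).1).2, (mem_filter.1 h).2⟩

theorem dead_of {β : Fin r → Fin K} {a s : ℕ} {E : Finset (Fin r)} (E' : Finset (Fin r))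
    (h : s + 2 ≤ E.card ∨ ∃ k, a < cnt β E k) : Dead β a s E E' := by
  intro J hJ h1 _
  obtain ⟨h2, h3⟩ := mem_fam hJ
  rcases h with h | ⟨k, h⟩
  · have := card_le_card h1
    omega
  · exact (h.trans_le (cnt_mono β h1 k)).not_ge (h3 k)

theorem dead_of' {β : Fin r → Fin K} {a s : ℕ} (E : Finset (Fin r)) {U : Finset (Fin r)}
    (h : U.card < s) : Dead β a s E Uᶜ := by
  intro J hJ _ h1
  have h2 := (mem_fam hJ).1
  have h3 : J ⊆ U := by simpa using le_compl_iff_disjoint_right.2 h1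
  have := card_le_card h3
  omega

theorem few_of {β : Fin r → Fin K} {a s : ℕ} {E : Finset (Fin r)} (E' : Finset (Fin r))
    (h : s + 1 ≤ E.card) : Few β a s E E' := by
  intro J hJ h1 _ L hL h2 _
  have h3 := (mem_fam hJ).1
  have h4 := (mem_fam hL).1
  rw [← eq_of_subset_of_card_le h1 (by omega), ← eq_of_subset_of_card_le h2 (by omega)]

theorem few_of' {β : Fin r → Fin K} {a s : ℕ} (E : Finset (Fin r)) {U : Finset (Fin r)}
    (h : U.card ≤ s) : Few β a s E Uᶜ := by
  intro J hJ _ h1 L hL _ h2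
  have h3 := (mem_fam hJ).1
  have h4 := (mem_fam hL).1
  have h5 : J ⊆ U := by simpa using le_compl_iff_disjoint_right.2 h1
  have h6 : L ⊆ U := by simpa using le_compl_iff_disjoint_right.2 h2
  rw [eq_of_subset_of_card_le h5 (by omega), eq_of_subset_of_card_le h6 (by omega)]

theorem sel (β : Fin r → Fin K) (X Y : Finset (Fin r)) {n s a l : ℕ} (hX : X.card + s = n)
    (hn : n ≤ r) (hY : ∀ k, a < cnt β Yᶜ k)
    (h : Y.card + l + 2 ≤ n ∨ K * a + Y.card + s < n + K * s) :
    ∃ U, X ⊆ U ∧ U.card = n ∧ ∀ E', Dead β a l (U \ Y) E' := by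
  have ext : ∀ W : Finset (Fin r), W.card ≤ n → ∃ U, W ⊆ U ∧ U.card = n := fun W hW => by
    obtain ⟨U, h1, -, h2⟩ := exists_subsuperset_card_eq (subset_univ W) hW (by simpa using hn)
    exact ⟨U, h1, h2⟩
  rcases h with h | h
  · obtain ⟨U, h1, h2⟩ := ext X (by omega)
    refine ⟨U, h1, h2, fun E' => dead_of E' (Or.inl ?_)⟩
    have := le_card_sdiff Y U
    omega
  · have h1 : ∃ k, a < cnt β (X \ Y) k + s := by
      by_contra hc
      push Not at hc
      have h2 := card_add_le β hc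
      have := le_card_sdiff Y X
      omega
    obtain ⟨k, hk⟩ := h1
    have hs : (X \ Y).filter (fun i => β i = k) ⊆ Yᶜ.filter fun i => β i = k :=
      filter_subset_filter _ fun i hi => mem_compl.2 (mem_sdiff.1 hi).2
    obtain ⟨E, e1, e2, e3⟩ := exists_subsuperset_card_eq (n := max (cnt β (X \ Y) k) (a + 1)) hs
      (le_max_left _ _) (max_le (card_le_card hs) (hY k))
    have e4 : (X ∪ E).card ≤ n := by
      have e5 : X ∪ E ⊆ X ∪ E \ (X \ Y).filter fun i => β i = k := by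
        intro i hi
        by_cases hx : i ∈ X
        · exact mem_union_left _ hx
        · exact mem_union_right _ (mem_sdiff.2 ⟨(mem_union.1 hi).resolve_left hx,
            fun h' => hx (mem_sdiff.1 (mem_filter.1 h').1).1⟩)
      have e6 := (card_le_card e5).trans (card_union_le _ _)
      rw [card_sdiff_of_subset e1, e3] at e6
      unfold cnt at hk e6
      omega
    obtain ⟨U, h1, h2⟩ := ext _ e4
    refine ⟨U, subset_union_left.trans h1, h2, fun E' => dead_of E' (Or.inr ⟨k, ?_⟩)⟩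
    have e7 : E ⊆ (U \ Y).filter fun i => β i = k := fun i hi =>
      mem_filter.2 ⟨mem_sdiff.2 ⟨h1 (mem_union_right _ hi), mem_compl.1 (mem_filter.1 (e2 hi)).1⟩,
        (mem_filter.1 (e2 hi)).2⟩
    have e8 := card_le_card e7
    unfold cnt at e3 ⊢
    omega

theorem near_full (β : Fin r → Fin K) {S : Finset (Fin r)} {a b : ℕ} (k : Fin K)
    (hb : cnt β univ k ≤ b + 1) (h : ∀ k', k' ≠ k → cnt β S k' ≤ a) :
    S.card + a ≤ K * a + b + 1 := by
  have h1 : ∑ k' ∈ univ.erase k, cnt β S k' ≤ ∑ _k' ∈ univ.erase k, a :=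
    sum_le_sum fun k' hk => h k' (ne_of_mem_erase hk)
  have h2 := add_sum_erase univ (cnt β S) (mem_univ k)
  have h3 := add_sum_erase univ (fun _ : Fin K => a) (mem_univ k)
  have h4 := cnt_mono β (subset_univ S) k
  rw [sum_cnt] at h2
  simp only [sum_const, card_univ, Fintype.card_fin, smul_eq_mul] at h1 h3
  omega

theorem key (β : Fin r → Fin K) {a b m j u g : ℕ} (hb : ∀ k, b ≤ cnt β univ k)
    (hb' : ∀ k, cnt β univ k ≤ b + 1) (hr : 2 * m + 1 ≤ r) (hm : m = j + u + 1) (hu : 1 ≤ u)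
    (hK : 3 ≤ K) (hA : K * a ≤ m + g) (c1 : 2 * g + K + 3 * u < K * u + 1)
    (c2 : 2 * (K * a + b + 1) < r + j + 1 + 2 * a) (c3 : K * a + a ≤ b + j)
    (O Z D : Finset (Fin r)) (h : O.card + Z.card + D.card ≤ r) :
    ∃ E1 E0 E2 : Finset (Fin r), Disjoint E1 O ∧ Disjoint E0 Z ∧ Disjoint E2 D ∧
      Disjoint E1 E0 ∧ Disjoint E1 E2 ∧ Disjoint E0 E2 ∧
      (Dead β a m E0 E1 ∧ Few β a j E2 E1 ∨ Few β a m E0 E1 ∧ Dead β a j E2 E1) := by
  rcases le_or_gt O.card j with h0 | h0
  · exact ⟨Oᶜ, ∅, ∅, disjoint_compl_left, by simp, by simp, by simp, by simp, by simp,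
      Or.inl ⟨dead_of' _ (by omega), few_of' _ h0⟩⟩
  have eZ : Zᶜ.card + Z.card = r := by simp
  have eD : Dᶜ.card + D.card = r := by simp
  obtain ⟨K', rfl⟩ : ∃ K', K = K' + 3 := ⟨K - 3, by omega⟩
  by_cases hZ : ∀ k, cnt β Zᶜ k ≤ a
  · have h1 := card_add_le β (s := 0) hZ
    have h2 : ∀ k, a < cnt β Dᶜ k := fun k => by
      have := cnt_compl β D k
      have := hb k
      omega
    have h3 : ∀ n s, m ≤ n → D.card ≤ 2 * s + 1 →
        D.card + j + 2 ≤ n ∨ (K' + 3) * a + D.card + s < n + (K' + 3) * s := by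
      intro n s hn hs
      rcases lt_or_ge D.card u with hd | hd
      · omega
      · have e1 := Nat.mul_le_mul_left K' hd
        have e2 := Nat.mul_le_mul_left K' hs
        right
        nlinarith
    rcases le_or_gt (D.card + 2 * O.card) (2 * m + 1) with h4 | h4
    · obtain ⟨U, u1, u2, u3⟩ := sel β O D (n := m) (s := m - O.card) (l := j) (by omega) (by omega)
        h2 (h3 _ _ le_rfl (by omega))
      exact ⟨Uᶜ, ∅, U \ D, disjoint_compl_left.mono_right u1, by simp, sdiff_disjoint, by simp,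
        disjoint_compl_left.mono_right sdiff_subset, by simp, Or.inr ⟨few_of' _ u2.le, u3 _⟩⟩
    · obtain ⟨U, u1, u2, u3⟩ := sel β Z D (n := r - m - 1) (s := r - m - 1 - Z.card) (l := j)
        (by omega) (by omega) h2 (h3 _ _ (by omega) (by omega))
      have eU : Uᶜ.card + U.card = r := by simp
      exact ⟨∅, Uᶜ, U \ D, by simp, disjoint_compl_left.mono_right u1, sdiff_disjoint, by simp,
        by simp, disjoint_compl_left.mono_right sdiff_subset,
        Or.inr ⟨few_of _ (by omega), u3 _⟩⟩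
  by_cases hD : ∀ k, cnt β Dᶜ k ≤ a
  · have h1 := card_add_le β (s := 0) hD
    have h2 : ∀ k, a < cnt β Zᶜ k := fun k => by
      have := cnt_compl β Z k
      have := hb k
      omega
    obtain ⟨s, hs⟩ : ∃ s, D.card + s = r - j - 1 := ⟨r - j - 1 - D.card, by omega⟩
    have h3 : Z.card + m + 2 ≤ r - j - 1 ∨
        (K' + 3) * a + Z.card + s < r - j - 1 + (K' + 3) * s := by
      rcases le_or_gt (Z.card + m + 2) (r - j - 1) with hd | hd
      · exact Or.inl hd
      · have e1 := Nat.mul_le_mul_left K' (show u ≤ s by omega)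
        have e2 : Z.card ≤ s := by omega
        have e3 : m ≤ r - j - 1 := by omega
        right
        nlinarith
    obtain ⟨U, u1, u2, u3⟩ := sel β D Z (l := m) hs (by omega) h2 h3
    have eU : Uᶜ.card + U.card = r := by simp
    exact ⟨∅, U \ Z, Uᶜ, by simp, sdiff_disjoint, disjoint_compl_left.mono_right u1, by simp,
      by simp, disjoint_compl_right.mono_left sdiff_subset, Or.inl ⟨u3 _, few_of _ (by omega)⟩⟩
  push Not at hZ hD
  by_cases hk : ∃ k k', k ≠ k' ∧ a < cnt β Zᶜ k ∧ a < cnt β Dᶜ k'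
  · obtain ⟨k, k', h1, h2, h3⟩ := hk
    have e : ∀ (S : Finset (Fin r)) (k : Fin (K' + 3)),
        cnt β (S.filter fun i => β i = k) k = cnt β S k := fun S k => by
      simp only [cnt, filter_filter, and_self]
    have d2 : Dead β a j (Dᶜ.filter fun i => β i = k') ∅ :=
      dead_of _ (Or.inr ⟨k', by rwa [e]⟩)
    refine ⟨∅, Zᶜ.filter fun i => β i = k, Dᶜ.filter fun i => β i = k', by simp,
      disjoint_compl_left.mono_left (filter_subset _ _),
      disjoint_compl_left.mono_left (filter_subset _ _), by simp, by simp,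
      disjoint_left.2 fun i h4 h5 => h1 ((mem_filter.1 h4).2.symm.trans (mem_filter.1 h5).2),
      Or.inl ⟨dead_of _ (Or.inr ⟨k, by rwa [e]⟩), fun J hJ h4 h5 => (d2 J hJ h4 h5).elim⟩⟩
  · push Not at hk
    obtain ⟨k, h1⟩ := hZ
    obtain ⟨k', h2⟩ := hD
    obtain rfl : k = k' := by
      by_contra hc
      exact (hk k k' hc h1).not_gt h2
    have h3 := near_full β k (hb' k) (S := Dᶜ) fun k' h' => hk k k' h'.symm h1
    have h4 := near_full β k (hb' k) (S := Zᶜ) (a := a) fun k' h' => by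
      by_contra hc
      exact (hk k' k h' (not_le.1 hc)).not_gt h2
    omega

variable {α : Type*} [DecidableEq α]

/-- The positions of a letter in a word. -/
def pos (e : Fin r → α) (c : α) : Finset (Fin r) := univ.filter fun i => e i = c

/-- The positions where a letter is blocked. -/
def blk (C : Finset (Fin r × α)) (c : α) : Finset (Fin r) := univ.filter fun i => (i, c) ∈ C

theorem exists_word [Fintype α] (hα : r < Fintype.card α) {C : Finset (Fin r × α)}
    (hC : C.card ≤ r) {x y z : α} {E1 E0 E2 : Finset (Fin r)} (h1 : Disjoint E1 (blk C x))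
    (h0 : Disjoint E0 (blk C y)) (h2 : Disjoint E2 (blk C z)) (d1 : Disjoint E1 E0)
    (d2 : Disjoint E1 E2) (d3 : Disjoint E0 E2) :
    ∃ e : Fin r → α, (∀ i, (i, e i) ∉ C) ∧ E1 ⊆ pos e x ∧ E0 ⊆ pos e y ∧ E2 ⊆ pos e z := by
  have hg : ∀ i : Fin r, ∃ x : α, (i, x) ∉ C := by
    intro i
    by_contra hx
    push Not at hx
    have := card_le_card_of_injOn (s := univ) (t := C) (fun x : α => (i, x)) (fun x _ => hx x)
      fun x _ y _ h => (Prod.ext_iff.1 h).2
    rw [card_univ] at this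
    omega
  choose g hg using hg
  refine ⟨fun i => if i ∈ E1 then x else if i ∈ E0 then y else if i ∈ E2 then z else g i,
    fun i => ?_, fun i hi => ?_, fun i hi => ?_, fun i hi => ?_⟩
  · dsimp only
    split_ifs with h3 h4 h5
    · exact fun h => disjoint_left.1 h1 h3 (mem_filter.2 ⟨mem_univ _, h⟩)
    · exact fun h => disjoint_left.1 h0 h4 (mem_filter.2 ⟨mem_univ _, h⟩)
    · exact fun h => disjoint_left.1 h2 h5 (mem_filter.2 ⟨mem_univ _, h⟩)
    · exact hg i
  · simp [pos, hi]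
  · simp [pos, hi, disjoint_right.1 d1 hi]
  · simp [pos, hi, disjoint_right.1 d2 hi, disjoint_right.1 d3 hi]

theorem blk_sum (C : Finset (Fin r × α)) {x y z : α} (hxy : x ≠ y) (hxz : x ≠ z) (hyz : y ≠ z) :
    (blk C x).card + (blk C y).card + (blk C z).card ≤ C.card := by
  have h : ∀ c, (blk C c).card ≤ (C.filter fun v => v.2 = c).card := fun c =>
    card_le_card_of_injOn (fun i => (i, c))
      (fun i hi => mem_coe.2 (mem_filter.2 ⟨(mem_filter.1 hi).2, rfl⟩))
      fun i _ k _ h => (Prod.ext_iff.1 h).1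
  have d : ∀ {c c' : α}, c ≠ c' → Disjoint (C.filter fun v => v.2 = c) (C.filter fun v => v.2 = c') :=
    fun hc => disjoint_filter.2 fun v _ h1 h2 => hc (h1.symm.trans h2)
  refine (add_le_add (add_le_add (h x) (h y)) (h z)).trans ?_
  rw [← card_union_of_disjoint (d hxy),
    ← card_union_of_disjoint (disjoint_union_left.2 ⟨d hxz, d hyz⟩)]
  exact card_le_card (union_subset (union_subset (filter_subset _ _) (filter_subset _ _))
    (filter_subset _ _))

/-- The word with `x` on `J` and `y` elsewhere. -/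
def word (x y : α) (J : Finset (Fin r)) : Fin r → α := fun i => if i ∈ J then x else y

theorem of_miss {x y : α} {J : Finset (Fin r)} {e : Fin r → α} (h : ∀ i, e i ≠ word x y J i) :
    pos e y ⊆ J ∧ Disjoint J (pos e x) := by
  refine ⟨fun i hi => ?_, disjoint_left.2 fun i hi hi' => ?_⟩
  · by_contra hc
    exact h i (by rw [word, if_neg hc]; exact (mem_filter.1 hi).2)
  · exact h i (by rw [word, if_pos hi]; exact (mem_filter.1 hi').2)

theorem main [Fintype α] (hα : r < Fintype.card α) {x y z : α} (hxy : x ≠ y) (hxz : x ≠ z)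
    (hyz : y ≠ z) (β : Fin r → Fin K) {a b m j u g : ℕ} (hb : ∀ k, b ≤ cnt β univ k)
    (hb' : ∀ k, cnt β univ k ≤ b + 1) (hr : 2 * m + 1 ≤ r) (hm : m = j + u + 1) (hu : 1 ≤ u)
    (hK : 3 ≤ K) (hA : K * a ≤ m + g) (c1 : 2 * g + K + 3 * u < K * u + 1)
    (c2 : 2 * (K * a + b + 1) < r + j + 1 + 2 * a) (c3 : K * a + a ≤ b + j) :
    ∃ H : Finset (Fin r → α),
      (∀ F ⊆ H, F.card < (fam β a m).card + (fam β a j).card →
        ∃ t : Fin r → α, ∀ e ∈ F, ∃ i, e i = t i) ∧
      ∀ C : Finset (Fin r × α), (∀ e ∈ H, ∃ i, (i, e i) ∈ C) → r < C.card := by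
  classical
  set A := (fam β a m).disjSum (fam β a j) with hA'
  set f : Finset (Fin r) ⊕ Finset (Fin r) → Fin r → α := Sum.elim (word x y) (word x z) with hf
  set M : (Fin r → α) → Finset (Finset (Fin r) ⊕ Finset (Fin r)) :=
    fun e => A.filter fun u => ∀ i, e i ≠ f u i with hM
  refine ⟨univ.filter fun e => (M e).card ≤ 1, fun F hF hlt => ?_, fun C hC => ?_⟩
  · have h1 : (F.biUnion M).card < A.card := by
      refine (card_biUnion_le_card_mul F M 1 fun e he => (mem_filter.1 (hF he)).2).trans_lt ?_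
      rwa [hA', card_disjSum, mul_one]
    obtain ⟨u, hu, hu'⟩ := exists_mem_notMem_of_card_lt_card h1
    refine ⟨f u, fun e he => ?_⟩
    by_contra hc
    push Not at hc
    exact hu' (mem_biUnion.2 ⟨e, he, mem_filter.2 ⟨hu, hc⟩⟩)
  · by_contra hc
    obtain ⟨E1, E0, E2, p1, p0, p2, d1, d2, d3, h2⟩ := key β hb hb' hr hm hu hK hA c1 c2 c3
      (blk C x) (blk C y) (blk C z) ((blk_sum C hxy hxz hyz).trans (not_lt.1 hc))
    obtain ⟨e, h1, s1, s0, s2⟩ := exists_word hα (not_lt.1 hc) p1 p0 p2 d1 d2 d3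
    refine (hC e (mem_filter.2 ⟨mem_univ _, card_le_one.2 fun u hu v hv => ?_⟩)).elim h1
    have l : ∀ {J}, Sum.inl J ∈ M e → J ∈ fam β a m ∧ E0 ⊆ J ∧ Disjoint J E1 := fun h =>
      ⟨inl_mem_disjSum.1 (mem_filter.1 h).1, s0.trans (of_miss (mem_filter.1 h).2).1,
        (of_miss (mem_filter.1 h).2).2.mono_right s1⟩
    have l' : ∀ {J}, Sum.inr J ∈ M e → J ∈ fam β a j ∧ E2 ⊆ J ∧ Disjoint J E1 := fun h =>
      ⟨inr_mem_disjSum.1 (mem_filter.1 h).1, s2.trans (of_miss (mem_filter.1 h).2).1,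
        (of_miss (mem_filter.1 h).2).2.mono_right s1⟩
    rcases h2 with ⟨h2, h3⟩ | ⟨h2, h3⟩
    · rcases u with J | J
      · exact (h2 J (l hu).1 (l hu).2.1 (l hu).2.2).elim
      rcases v with L | L
      · exact (h2 L (l hv).1 (l hv).2.1 (l hv).2.2).elim
      rw [h3 J (l' hu).1 (l' hu).2.1 (l' hu).2.2 L (l' hv).1 (l' hv).2.1 (l' hv).2.2]
    · rcases u with J | J
      swap
      · exact (h3 J (l' hu).1 (l' hu).2.1 (l' hu).2.2).elim
      rcases v with L | L
      swap
      · exact (h3 L (l' hv).1 (l' hv).2.1 (l' hv).2.2).elim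
      rw [h2 J (l hu).1 (l hu).2.1 (l hu).2.2 L (l hv).1 (l hv).2.1 (l hv).2.2]

/-- The exponential moment bound for one block. -/
theorem tail (β : Fin r → Fin K) (k : Fin K) {a n q : ℕ} (hn : cnt β univ k ≤ n)
    (ha : n + 2 * q ≤ 2 * (a + 1)) {x : ℝ} (hx : 0 ≤ x) :
    ((univ.filter fun S : Finset (Fin r) => a < cnt β S k).card : ℝ) ≤
      2 ^ r * Real.exp (n * x ^ 2 / 8 - x * q) := by
  set f : Fin r → ℝ := fun i => if β i = k then Real.exp x else 1 with hf
  have h1 : ∀ S : Finset (Fin r), ∀ y : ℝ,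
      ∏ i ∈ S, (if β i = k then Real.exp y else 1) = Real.exp (cnt β S k * y) := fun S y => by
    rw [prod_ite, prod_const_one, mul_one, prod_const, Real.exp_nat_mul]
    rfl
  have h2 : 1 + Real.exp x ≤ 2 * Real.exp (x / 2 + x ^ 2 / 8) := by
    have e1 := Real.cosh_le_exp_half_sq (x / 2)
    rw [Real.cosh_eq, show (x / 2) ^ 2 / 2 = x ^ 2 / 8 by ring] at e1
    have e2 : Real.exp x = Real.exp (x / 2) * Real.exp (x / 2) := by
      rw [← Real.exp_add, add_halves]
    have e3 : Real.exp (x / 2) * Real.exp (-(x / 2)) = 1 := by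
      rw [← Real.exp_add, add_neg_cancel, Real.exp_zero]
    have e4 := mul_le_mul_of_nonneg_left e1 (Real.exp_pos (x / 2)).le
    rw [Real.exp_add]
    linarith
  have h3 : ∏ i, (1 + f i) ≤ 2 ^ r * Real.exp (n * (x / 2 + x ^ 2 / 8)) := by
    calc ∏ i, (1 + f i) ≤ ∏ i, 2 * (if β i = k then Real.exp (x / 2 + x ^ 2 / 8) else 1) := by
          refine prod_le_prod (fun i _ => ?_) fun i _ => ?_
          · simp only [hf]
            split_ifs <;> positivity
          · simp only [hf]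
            split_ifs
            · exact h2
            · norm_num
      _ = 2 ^ r * Real.exp (cnt β univ k * (x / 2 + x ^ 2 / 8)) := by
          rw [prod_mul_distrib, h1, prod_const, card_univ, Fintype.card_fin]
      _ ≤ _ := by gcongr
  have h4 : ((univ.filter fun S : Finset (Fin r) => a < cnt β S k).card : ℝ) *
      Real.exp ((a + 1) * x) ≤ ∏ i, (1 + f i) := by
    rw [prod_one_add, ← nsmul_eq_mul, ← sum_const, powerset_univ]
    refine le_trans (sum_le_sum fun S hS => ?_) (sum_le_sum_of_subset_of_nonneg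
      (filter_subset _ univ) fun S _ _ => by rw [h1]; positivity)
    rw [h1]
    have : (a + 1 : ℝ) ≤ cnt β S k := by exact_mod_cast (mem_filter.1 hS).2
    gcongr
  have h5 : n * (x / 2 + x ^ 2 / 8) ≤ n * x ^ 2 / 8 - x * q + (a + 1) * x := by
    have : (n + 2 * q : ℝ) ≤ 2 * (a + 1) := by exact_mod_cast ha
    nlinarith [mul_le_mul_of_nonneg_left this hx]
  refine le_of_mul_le_mul_right ((h4.trans h3).trans ?_) (Real.exp_pos ((a + 1) * x))
  rw [mul_assoc, ← Real.exp_add]
  gcongr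

theorem card_fam (β : Fin r → Fin K) (a s : ℕ) {B : ℝ}
    (h : ∀ k, ((univ.filter fun S : Finset (Fin r) => a < cnt β S k).card : ℝ) ≤ B) :
    (r.choose s + r.choose (s + 1) : ℝ) ≤ (fam β a s).card + K * B := by
  have h1 : layers r s ⊆ fam β a s ∪
      univ.biUnion fun k => univ.filter fun S : Finset (Fin r) => a < cnt β S k := by
    intro S hS
    by_cases hc : ∀ k, cnt β S k ≤ a
    · exact mem_union_left _ (mem_filter.2 ⟨hS, hc⟩)
    · push Not at hc
      obtain ⟨k, hk⟩ := hc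
      exact mem_union_right _ (mem_biUnion.2 ⟨k, mem_univ _, mem_filter.2 ⟨mem_univ _, hk⟩⟩)
  have h2 := (card_le_card h1).trans ((card_union_le _ _).trans (Nat.add_le_add_left card_biUnion_le _))
  rw [card_layers] at h2
  have h3 : (r.choose s + r.choose (s + 1) : ℝ) ≤ (fam β a s).card +
      ∑ k, ((univ.filter fun S : Finset (Fin r) => a < cnt β S k).card : ℝ) := by exact_mod_cast h2
  have h4 := sum_le_sum fun k (_ : k ∈ univ) => h k
  simp only [sum_const, card_univ, Fintype.card_fin, nsmul_eq_mul] at h4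
  linarith

theorem level (r i : ℕ) : ∀ x, x + i = r / 2 →
    r / 2 * r.choose (r / 2) ≤ r / 2 * r.choose x + i * (i + 1) * r.choose (r / 2) := by
  induction i with
  | zero => intro x hx; simp [← hx]
  | succ i ih =>
    intro x hx
    have h1 := ih (x + 1) (by omega)
    have h2 := Nat.choose_succ_right_eq r x
    have h3 := Nat.mul_le_mul_left (r.choose x) (show r - x ≤ r / 2 + i + 2 by omega)
    have h4 := Nat.mul_le_mul_left (i + 2) (Nat.choose_le_middle x r)
    have h5 := Nat.mul_le_mul_left i (Nat.choose_le_middle (x + 1) r)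
    generalize r / 2 = h at *
    subst hx
    nlinarith

theorem two_pow_le (r : ℕ) : 2 ^ r ≤ (r + 1) * r.choose (r / 2) := by
  rw [← Nat.sum_range_choose]
  simpa using sum_le_card_nsmul (range (r + 1)) _ _ fun i _ => Nat.choose_le_middle i r

theorem exists_blocks (r : ℕ) (hK : 0 < K) : ∃ β : Fin r → Fin K,
    (∀ k, r / K ≤ cnt β univ k) ∧ ∀ k, cnt β univ k ≤ r / K + 1 := by
  have h : ∀ k : Fin K, cnt (fun i : Fin r => (⟨i % K, Nat.mod_lt _ hK⟩ : Fin K)) univ k =
      r / K + if k % K < r % K then 1 else 0 := fun k => by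
    rw [← Nat.count_modEq_card r hK, Nat.count_eq_card_filter_range, cnt, card_filter, card_filter,
      ← Fin.sum_univ_eq_sum_range fun i => if i ≡ k [MOD K] then 1 else 0]
    simp only [Fin.ext_iff, Nat.ModEq, Nat.mod_eq_of_lt k.2]
  refine ⟨fun i => ⟨i % K, Nat.mod_lt _ hK⟩, fun k => ?_, fun k => ?_⟩
  · rw [h]
    omega
  · rw [h]
    split_ifs <;> omega

theorem level' {r q t i x : ℕ} (hx : x + i = r / 2) (hi : i ≤ 4 * q + 2) (hq : 1 ≤ q)
    (ht : t * q ^ 2 ≤ 3 * (r / 2)) (hr : 0 < r / 2) :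
    (t * r.choose (r / 2) : ℝ) ≤ t * r.choose x + 126 * r.choose (r / 2) := by
  have h1 := Nat.mul_le_mul_left t (level r i x hx)
  have h2 : i * (i + 1) ≤ 6 * q * (7 * q) := Nat.mul_le_mul (by omega) (by omega)
  have h3 : t * (i * (i + 1)) ≤ 126 * (r / 2) := by nlinarith [Nat.mul_le_mul_left t h2]
  have h4 := Nat.mul_le_mul_right (r.choose (r / 2)) h3
  have h5 : r / 2 * (t * r.choose (r / 2)) ≤
      r / 2 * (t * r.choose x + 126 * r.choose (r / 2)) := by nlinarith
  exact_mod_cast Nat.le_of_mul_le_mul_left h5 hr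

theorem small {t n : ℕ} (ht : 1 ≤ t) (hn : n ≤ 513 * t ^ 7) :
    Real.exp (n * (1 / (128 * t ^ 3) : ℝ) ^ 2 / 8 - 1 / (128 * t ^ 3) * (t ^ 4 : ℕ)) * t ^ 12 ≤
      (Nat.factorial 12 : ℝ) * 260 ^ 12 := by
  have h0 : (0 : ℝ) < t := by exact_mod_cast ht
  have h1 : (n : ℝ) ≤ 513 * t ^ 7 := by exact_mod_cast hn
  have h2 : n * (1 / (128 * t ^ 3) : ℝ) ^ 2 / 8 - 1 / (128 * t ^ 3) * (t ^ 4 : ℕ) ≤ -(t / 260) := by
    have e1 : n * (1 / (128 * t ^ 3) : ℝ) ^ 2 ≤ 513 * t ^ 7 * (1 / (128 * t ^ 3) : ℝ) ^ 2 := by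
      gcongr
    have e2 : 513 * t ^ 7 * (1 / (128 * t ^ 3) : ℝ) ^ 2 = 513 / 16384 * t := by
      field_simp
      norm_num
    have e3 : (1 / (128 * t ^ 3) * (t ^ 4 : ℕ) : ℝ) = t / 128 := by
      push_cast
      field_simp
    linarith
  have h3 := Real.pow_div_factorial_le_exp (t / 260 : ℝ) (by positivity) 12
  rw [div_pow, div_div, div_le_iff₀ (by positivity)] at h3
  have h4 := mul_le_mul (Real.exp_le_exp.2 h2) h3 (by positivity) (Real.exp_pos _).le
  rw [← mul_assoc, ← Real.exp_add, neg_add_cancel, Real.exp_zero] at h4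
  linarith

theorem result (ε : ℝ) (hε : 0 < ε) : ∃ r₀ : ℕ, ∀ r ≥ r₀,
    ∃ H : Finset (Fin r → Fin (r + 1)),
      (∀ F ⊆ H, (F.card : ℝ) ≤ (4 - ε) * r.choose (r / 2) →
        ∃ t : Fin r → Fin (r + 1), ∀ e ∈ F, ∃ i, e i = t i) ∧
      ∀ C : Finset (Fin r × Fin (r + 1)), (∀ e ∈ H, ∃ i, (i, e i) ∈ C) → r < C.card := by
  set c : ℝ := (Nat.factorial 12 : ℝ) * 260 ^ 12 with hc
  have hc0 : 0 ≤ c := by positivity
  obtain ⟨t₀, ht₀⟩ := exists_nat_gt ((504 + 1024 * c) / ε)
  refine ⟨(t₀ + 20) ^ 9, fun r hr => ?_⟩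
  obtain ⟨t, t1, t2⟩ : ∃ t : ℕ, t ^ 9 ≤ r ∧ r < (t + 1) ^ 9 :=
    ⟨_, Nat.pow_nthRoot_le (Or.inl (by norm_num)), Nat.lt_pow_nthRoot_add_one (by norm_num) r⟩
  have t3 : t₀ + 20 ≤ t := Nat.lt_succ_iff.1 (lt_of_pow_lt_pow_left' 9 (hr.trans_lt t2))
  have t4 : r + 1 ≤ 512 * t ^ 9 := by
    have := Nat.pow_le_pow_left (show t + 1 ≤ 2 * t by omega) 9
    rw [mul_pow] at this
    omega
  have k1 : 400 ≤ t ^ 2 := Nat.pow_le_pow_left (show 20 ≤ t by omega) 2
  have k2 : t ^ 2 ≤ t ^ 4 := Nat.pow_le_pow_right (by omega) (by norm_num)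
  have k3 := Nat.mul_le_mul_right (t ^ 4) k1
  have k4 : t ^ 7 ≤ r / t ^ 2 := (Nat.le_div_iff_mul_le (by omega)).2 (by rwa [← pow_add])
  have k5 : 20 * (t ^ 2 * t ^ 4) ≤ t ^ 7 := by
    rw [show t ^ 7 = t * (t ^ 2 * t ^ 4) by ring]
    exact Nat.mul_le_mul_right _ (by omega)
  have k6 : r / t ^ 2 ≤ 512 * t ^ 7 :=
    Nat.div_le_of_le_mul (by rw [show t ^ 2 * (512 * t ^ 7) = 512 * t ^ 9 by ring]; omega)
  have k7 := Nat.mul_div_le r (t ^ 2)
  have k8 := Nat.mul_le_mul_right (r / t ^ 2) k1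
  have k9 : t * (t ^ 4) ^ 2 ≤ 3 * (r / 2) := by
    rw [show t * (t ^ 4) ^ 2 = t ^ 9 by ring]
    omega
  obtain ⟨β, b1, b2⟩ := exists_blocks r (K := t ^ 2) (by omega)
  set b := r / t ^ 2 with hb
  have k10 : 2 * (t ^ 2 * (b / 2 + t ^ 4)) ≤ r + 2 * (t ^ 2 * t ^ 4) := by
    have := Nat.mul_le_mul_left (t ^ 2) (Nat.mul_div_le b 2)
    nlinarith
  obtain ⟨H, h1, h2⟩ := main (α := Fin (r + 1)) (x := ⟨0, by omega⟩) (y := ⟨1, by omega⟩)
    (z := ⟨2, by omega⟩) (by simp) (by simp [Fin.ext_iff]) (by simp [Fin.ext_iff])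
    (by simp [Fin.ext_iff]) β (a := b / 2 + t ^ 4) (m := r / 2 - 1) (j := r / 2 - 2 - 4 * t ^ 4)
    (u := 4 * t ^ 4) (g := t ^ 2 * t ^ 4 + 1) b1 b2 (by omega) (by omega) (by omega) (by omega)
    (by omega) (by rw [mul_left_comm (t ^ 2)]; omega) (by omega) (by omega)
  refine ⟨H, fun F hF hle => h1 F hF ?_, h2⟩
  have tp : (0 : ℝ) < t := by exact_mod_cast (show 0 < t by omega)
  have T := fun k => tail β k (a := b / 2 + t ^ 4) (q := t ^ 4) (b2 k) (by omega)
    (x := 1 / (128 * t ^ 3)) (by positivity)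
  have f1 := card_fam β _ (r / 2 - 1) T
  have f2 := card_fam β _ (r / 2 - 2 - 4 * t ^ 4) T
  have l1 := level' (x := r / 2 - 1) (i := 1) (by omega) (by omega) (by omega) k9 (by omega)
  have l2 := level' (x := r / 2 - 1 + 1) (i := 0) (by omega) (by omega) (by omega) k9 (by omega)
  have l3 := level' (x := r / 2 - 2 - 4 * t ^ 4) (i := 4 * t ^ 4 + 2) (by omega) (by omega)
    (by omega) k9 (by omega)
  have l4 := level' (x := r / 2 - 2 - 4 * t ^ 4 + 1) (i := 4 * t ^ 4 + 1) (by omega) (by omega)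
    (by omega) k9 (by omega)
  have s1 := small (t := t) (n := b + 1) (by omega) (by omega)
  have M0 : (0 : ℝ) < r.choose (r / 2) := by exact_mod_cast Nat.choose_pos (by omega)
  have s2 : (2 : ℝ) ^ r ≤ 512 * t ^ 9 * r.choose (r / 2) := by
    exact_mod_cast (two_pow_le r).trans (Nat.mul_le_mul_right _ t4)
  rw [← hc] at s1
  set E := Real.exp (((b + 1 : ℕ) : ℝ) * (1 / (128 * t ^ 3) : ℝ) ^ 2 / 8 -
    1 / (128 * t ^ 3) * (t ^ 4 : ℕ)) with hE
  have s3 : t * ((t ^ 2 : ℕ) * (2 ^ r * E)) ≤ 512 * (c * r.choose (r / 2)) := by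
    calc t * ((t ^ 2 : ℕ) * (2 ^ r * E)) ≤
          t * ((t ^ 2 : ℕ) * (512 * t ^ 9 * r.choose (r / 2) * E)) := by gcongr
      _ = 512 * (E * t ^ 12 * r.choose (r / 2)) := by
          push_cast
          ring
      _ ≤ _ := by gcongr
  have s4 : 504 + 1024 * c < t * ε := by
    rw [div_lt_iff₀ hε] at ht₀
    have : (t₀ : ℝ) ≤ t := by exact_mod_cast (show t₀ ≤ t by omega)
    exact ht₀.trans_le (by gcongr)
  have s5 := mul_lt_mul_of_pos_right s4 M0
  have s6 := mul_le_mul_of_nonneg_left hle tp.le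
  have s7 := mul_le_mul_of_nonneg_left (add_le_add f1 f2) tp.le
  have s8 : (t * F.card : ℝ) < t * ((fam β (b / 2 + t ^ 4) (r / 2 - 1)).card +
      (fam β (b / 2 + t ^ 4) (r / 2 - 2 - 4 * t ^ 4)).card) := by linarith
  exact_mod_cast lt_of_mul_lt_mul_left s8 tp.le

end Pool.Agent.Work.MP_b5d674_co.Parked.DoubleBound
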